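import Pool.Agent.TH291.C2.Defs4
import Pool.Agent.TH291.C2.Dim1
import Pool.Agent.TH291.C2.Exp

/-! Dimension bound for forms of weight `j` on the glued curve (helper236, job 5034). -/

set_option autoImplicit false
set_option maxSynthPendingDepth 4

namespace Pool.Agent.TH291.C2

variable {g : ℕ} {α β : Fin g → ℂ}

/-- all the glued points -/
def djx_v (α β : Fin g → ℂ) : Fin g ⊕ Fin g → ℂ := Sum.elim α β

theorem djx_inj (hd : Dist α β) : Function.Injective (djx_v α β) :=
  Function.Injective.sumElim hd.1 hd.2.1 hd.2.2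

/-- the common denominator -/
noncomputable def djx_Q (α β : Fin g → ℂ) (j : ℕ) : Polynomial ℂ :=
  ∏ s, (Polynomial.X - Polynomial.C (djx_v α β s)) ^ j

/-- the cofactor at one point -/
noncomputable def djx_Q1 (α β : Fin g → ℂ) (j : ℕ) (s : Fin g ⊕ Fin g) : Polynomial ℂ :=
  ∏ t ∈ Finset.univ.erase s, (Polynomial.X - Polynomial.C (djx_v α β t)) ^ j

theorem djx_Q_eq (j : ℕ) (s : Fin g ⊕ Fin g) : djx_Q α β j =
    (Polynomial.X - Polynomial.C (djx_v α β s)) ^ j * djx_Q1 α β j s :=
  (Finset.mul_prod_erase Finset.univ _ (Finset.mem_univ s)).symm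

theorem djx_Q_monic (j : ℕ) : (djx_Q α β j).Monic :=
  Polynomial.monic_prod_of_monic _ _ fun _ _ => (Polynomial.monic_X_sub_C _).pow j

theorem djx_Q_deg (j : ℕ) : (djx_Q α β j).natDegree = 2 * g * j := by
  rw [djx_Q, Polynomial.natDegree_prod_of_monic _ _
    (fun _ _ => (Polynomial.monic_X_sub_C _).pow j)]
  simp only [Polynomial.natDegree_pow, Polynomial.natDegree_X_sub_C, mul_one, Finset.sum_const,
    Finset.card_univ, Fintype.card_sum, Fintype.card_fin, smul_eq_mul]
  ring

theorem djx_mul_low {x y : LaurentSeries ℂ} {a b : ℤ} (hx : ∀ m < a, x.coeff m = 0)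
    (hy : ∀ m < b, y.coeff m = 0) {m : ℤ} (hm : m < a + b) : (x * y).coeff m = 0 := by
  rw [HahnSeries.coeff_mul]
  refine Finset.sum_eq_zero fun p hp => ?_
  rw [Finset.mem_antidiagonal] at hp
  obtain ⟨-, -, h3⟩ := hp
  rcases lt_or_ge p.1 a with h | h
  · rw [hx _ h, zero_mul]
  · rw [hy _ (by omega), mul_zero]

theorem djx_mul_lead {x y : LaurentSeries ℂ} {a b : ℤ} (hx : ∀ m < a, x.coeff m = 0)
    (hy : ∀ m < b, y.coeff m = 0) : (x * y).coeff (a + b) = x.coeff a * y.coeff b := by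
  rw [HahnSeries.coeff_mul, Finset.sum_eq_single (a, b)]
  · rintro ⟨i, k⟩ hp hne
    rw [Finset.mem_antidiagonal] at hp
    obtain ⟨-, -, h3⟩ := hp
    dsimp only at h3 ⊢
    rcases lt_trichotomy i a with h | h | h
    · rw [hx _ h, zero_mul]
    · exfalso
      apply hne
      rw [Prod.mk.injEq]
      exact ⟨h, by omega⟩
    · rw [hy _ (by omega), mul_zero]
  · intro hn
    rw [Finset.mem_antidiagonal] at hn
    dsimp only at hn ⊢
    by_contra hne
    apply hn
    refine ⟨?_, ?_, rfl⟩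
    · rw [HahnSeries.mem_support]
      intro h0
      exact hne (by rw [h0, zero_mul])
    · rw [HahnSeries.mem_support]
      intro h0
      exact hne (by rw [h0, mul_zero])

theorem djx_ex_pow (c : ℂ) (k : ℕ) :
    ex (some c) (algebraMap (Polynomial ℂ) (RatFunc ℂ)
      ((Polynomial.X - Polynomial.C c) ^ k)) = HahnSeries.single (k : ℤ) 1 := by
  rw [exp_algMap, Polynomial.eval₂_pow, Polynomial.eval₂_sub, Polynomial.eval₂_X,
    Polynomial.eval₂_C]
  have h2 : loc (some c) - HahnSeries.C c = HahnSeries.single 1 1 := by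
    change HahnSeries.C c + HahnSeries.single 1 1 - HahnSeries.C c = _
    ring
  rw [h2, HahnSeries.single_pow]
  simp

theorem djx_single_low (k : ℤ) : ∀ m < k, (HahnSeries.single k (1 : ℂ)).coeff m = 0 :=
  fun _ hm => HahnSeries.coeff_single_of_ne hm.ne

theorem djx_Q_low (j : ℕ) (s : Fin g ⊕ Fin g) : ∀ m < (j : ℤ),
    (ex (some (djx_v α β s)) (algebraMap (Polynomial ℂ) (RatFunc ℂ) (djx_Q α β j))).coeff m = 0 := by
  intro m hm
  rw [djx_Q_eq j s, map_mul, map_mul, djx_ex_pow]
  exact djx_mul_low (djx_single_low (j : ℤ)) (fun m hm => ex_poly_neg _ _ hm)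
    (b := 0) (by omega)

theorem djx_inf_low (p : Polynomial ℂ) : ∀ m < -(p.natDegree : ℤ),
    (ex none (algebraMap (Polynomial ℂ) (RatFunc ℂ) p)).coeff m = 0 := by
  intro m hm
  have h := ex_poly_inf p (-m).toNat
  have e : -(((-m).toNat : ℕ) : ℤ) = m := by omega
  rw [e] at h
  rw [h]
  exact Polynomial.coeff_eq_zero_of_natDegree_lt (by omega)

/-- leading coefficients of a form -/
theorem djx_lead {j N D : ℕ} (hD : D + 2 * j = N + 2 * g * j + 1) {h : F}
    (hh : Form α β j N h) : ∃ p : Polynomial ℂ, p ∈ Polynomial.degreeLT ℂ D ∧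
      h.coeff h.order = algebraMap (Polynomial ℂ) (RatFunc ℂ) p *
        (algebraMap (Polynomial ℂ) (RatFunc ℂ) (djx_Q α β j))⁻¹ ∧
      ∀ i, (djx_Q1 α β j (Sum.inr i)).eval (β i) * p.eval (α i) =
        ((-1) ^ j * (djx_Q1 α β j (Sum.inl i)).eval (α i)) * p.eval (β i) := by
  obtain ⟨h1, h2, h3⟩ := hh
  have hzero : ∀ {γ : ℚ}, γ < h.order → ∀ (P : Option ℂ) (m : ℤ), co P h m γ = 0 := by
    intro γ hγ P m
    unfold co
    rw [HahnSeries.coeff_eq_zero_of_lt_order hγ, map_zero, HahnSeries.coeff_zero]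
  have hQ0 : algebraMap (Polynomial ℂ) (RatFunc ℂ) (djx_Q α β j) ≠ 0 :=
    (map_ne_zero_iff _ (IsFractionRing.injective (Polynomial ℂ) (RatFunc ℂ))).2
      (djx_Q_monic j).ne_zero
  -- orders at the glued points
  have hα : ∀ i, ∀ m < -(j : ℤ), (ex (some (α i)) (h.coeff h.order)).coeff m = 0 := by
    intro i m hm
    have h4 := h2 i (m + j) h.order
    have hm' : (((m + j : ℤ)) : ℚ) < 0 := by
      have : m + (j : ℤ) < 0 := by omega
      exact_mod_cast this
    rw [hzero (γ := h.order + ((m + j : ℤ) : ℚ)) (by linarith), mul_zero,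
      add_sub_cancel_right] at h4
    exact h4
  have hβ : ∀ i, ∀ m < -(j : ℤ), (ex (some (β i)) (h.coeff h.order)).coeff m = 0 := by
    intro i m hm
    have h4 := h2 i (-m - j) (h.order - ((-m - j : ℤ) : ℚ))
    have hm' : (0 : ℚ) < ((-m - j : ℤ) : ℚ) := by
      have : (0 : ℤ) < -m - j := by omega
      exact_mod_cast this
    rw [hzero (γ := h.order - ((-m - j : ℤ) : ℚ)) (by linarith), sub_add_cancel] at h4
    have e : -(-m - (j : ℤ)) - j = m := by ring
    rw [e] at h4
    have h5 : ((-1 : ℂ)) ^ j ≠ 0 := pow_ne_zero _ (by norm_num)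
    exact (mul_eq_zero.1 h4.symm).resolve_left h5
  have hv : ∀ s, ∀ m < -(j : ℤ), (ex (some (djx_v α β s)) (h.coeff h.order)).coeff m = 0 := by
    rintro (i | i)
    · exact hα i
    · exact hβ i
  obtain ⟨p, hp⟩ := ratfunc_poly (h.coeff h.order *
      algebraMap (Polynomial ℂ) (RatFunc ℂ) (djx_Q α β j)) (by
    intro c m hm
    rw [map_mul]
    by_cases hc : ∃ s, c = djx_v α β s
    · obtain ⟨s, rfl⟩ := hc
      exact djx_mul_low (hv s) (djx_Q_low j s) (by omega)
    · push Not at hc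
      refine djx_mul_low (a := 0) (b := 0) ?_ (fun m hm => ex_poly_neg _ _ hm) (by omega)
      intro m hm
      exact h1 c (fun i => ⟨hc (Sum.inl i), hc (Sum.inr i)⟩) m h.order hm)
  refine ⟨p, ?_, ?_, ?_⟩
  · rw [Polynomial.mem_degreeLT]
    by_cases hp0 : p = 0
    · rw [hp0, Polynomial.degree_zero]
      exact WithBot.bot_lt_coe _
    · rw [Polynomial.degree_eq_natDegree hp0]
      have h5 : p.natDegree < D := by
        by_contra hcon
        push Not at hcon
        have h6 := ex_poly_inf p p.natDegree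
        rw [← hp, map_mul, djx_mul_low (a := 2 * (j : ℤ) - N) (b := -(2 * g * j : ℕ))
          (fun m hm => h3 m h.order hm) (fun m hm => djx_inf_low _ m (by rw [djx_Q_deg]; exact hm))]
          at h6
        · exact Polynomial.leadingCoeff_ne_zero.2 hp0 h6.symm
        · generalize 2 * g * j = q at *
          omega
      exact_mod_cast h5
  · rw [← hp, mul_assoc, mul_inv_cancel₀ hQ0, mul_one]
  · -- the values
    have key : ∀ s, p.eval (djx_v α β s) =
        (ex (some (djx_v α β s)) (h.coeff h.order)).coeff (-(j : ℤ)) *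
          (djx_Q1 α β j s).eval (djx_v α β s) := by
      intro s
      have h5 := ex_poly (djx_v α β s) p 0
      have h6 := ex_poly (djx_v α β s) (djx_Q1 α β j s) 0
      rw [Nat.cast_zero, Polynomial.taylor_coeff_zero] at h5 h6
      rw [← h5, ← hp, ← h6, djx_Q_eq j s, map_mul, map_mul, map_mul, djx_ex_pow, ← mul_assoc]
      have h7 := djx_mul_lead (x := ex (some (djx_v α β s)) (h.coeff h.order) *
          HahnSeries.single (j : ℤ) 1)
        (y := ex (some (djx_v α β s)) (algebraMap _ _ (djx_Q1 α β j s))) (a := 0) (b := 0)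
        (fun m hm => djx_mul_low (hv s) (djx_single_low (j : ℤ)) (by omega))
        (fun m hm => ex_poly_neg _ _ hm)
      have h8 := djx_mul_lead (hv s) (djx_single_low (j : ℤ))
      rw [HahnSeries.coeff_single_same, mul_one, neg_add_cancel] at h8
      rw [add_zero] at h7
      rw [h7, h8]
    intro i
    have k1 := key (Sum.inl i)
    have k2 := key (Sum.inr i)
    change p.eval (α i) = (ex (some (α i)) (h.coeff h.order)).coeff (-(j : ℤ)) *
      (djx_Q1 α β j (Sum.inl i)).eval (α i) at k1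
    change p.eval (β i) = (ex (some (β i)) (h.coeff h.order)).coeff (-(j : ℤ)) *
      (djx_Q1 α β j (Sum.inr i)).eval (β i) at k2
    have h4 := h2 i 0 h.order
    rw [zero_sub, neg_zero, zero_sub, Int.cast_zero, add_zero] at h4
    change (ex (some (α i)) (h.coeff h.order)).coeff (-(j : ℤ)) =
      (-1) ^ j * (ex (some (β i)) (h.coeff h.order)).coeff (-(j : ℤ)) at h4
    rw [k1, k2, h4]
    ring

/-- the conditions at the nodes -/
noncomputable def djx_map (α β : Fin g → ℂ) (a b : Fin g → ℂ) (D : ℕ) :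
    Polynomial.degreeLT ℂ D →ₗ[ℂ] (Fin g → ℂ) where
  toFun p i := a i * (p : Polynomial ℂ).eval (α i) - b i * (p : Polynomial ℂ).eval (β i)
  map_add' p q := by
    ext i
    simp only [Submodule.coe_add, Polynomial.eval_add, Pi.add_apply]
    ring
  map_smul' c p := by
    ext i
    simp only [Submodule.coe_smul, Polynomial.eval_smul, Pi.smul_apply, RingHom.id_apply,
      smul_eq_mul]
    ring

theorem djx_surj (hd : Dist α β) {a b : Fin g → ℂ} (ha : ∀ i, a i ≠ 0) {D : ℕ} (hn : 2 * g ≤ D) :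
    Function.Surjective (djx_map α β a b D) := by
  intro c
  let r : Fin g ⊕ Fin g → ℂ := Sum.elim (fun i => (a i)⁻¹ * c i) 0
  let p := Lagrange.interpolate (Finset.univ : Finset (Fin g ⊕ Fin g)) (djx_v α β) r
  have hdeg : p.degree < ((2 * g : ℕ) : WithBot ℕ) := by
    have h := Lagrange.degree_interpolate_lt (s := (Finset.univ : Finset (Fin g ⊕ Fin g)))
      (v := djx_v α β) r (djx_inj hd).injOn
    have hc : (Finset.univ : Finset (Fin g ⊕ Fin g)).card = 2 * g := by
      rw [Finset.card_univ, Fintype.card_sum, Fintype.card_fin]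
      ring
    rw [hc] at h
    exact h
  have hev : ∀ i, p.eval (djx_v α β i) = r i := fun i =>
    Lagrange.eval_interpolate_at_node r (djx_inj hd).injOn (Finset.mem_univ i)
  have hmem : p ∈ Polynomial.degreeLT ℂ D := by
    rw [Polynomial.mem_degreeLT]
    exact lt_of_lt_of_le hdeg (by exact_mod_cast hn)
  refine ⟨⟨p, hmem⟩, ?_⟩
  ext i
  change a i * p.eval (α i) - b i * p.eval (β i) = c i
  have h1 : p.eval (α i) = (a i)⁻¹ * c i := hev (Sum.inl i)
  have h2 : p.eval (β i) = 0 := hev (Sum.inr i)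
  rw [h1, h2, mul_zero, sub_zero, mul_inv_cancel_left₀ (ha i)]

theorem djx_Q1_eval (hd : Dist α β) (j : ℕ) (s : Fin g ⊕ Fin g) :
    (djx_Q1 α β j s).eval (djx_v α β s) ≠ 0 := by
  rw [djx_Q1, Polynomial.eval_prod]
  refine Finset.prod_ne_zero_iff.2 fun t ht => ?_
  rw [Polynomial.eval_pow, Polynomial.eval_sub, Polynomial.eval_X, Polynomial.eval_C]
  exact pow_ne_zero _ (sub_ne_zero.2 fun h => (Finset.mem_erase.1 ht).1 (djx_inj hd h).symm)

theorem djx_ker (hd : Dist α β) {a b : Fin g → ℂ} (hb : ∀ i, a i ≠ 0) {D : ℕ} (hn : 2 * g ≤ D) :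
    Module.finrank ℂ (LinearMap.ker (djx_map α β a b D)) + g = D := by
  have hfin : Module.Finite ℂ (Polynomial.degreeLT ℂ D) :=
    Module.Finite.equiv (Polynomial.degreeLTEquiv ℂ D).symm
  have hrk : Module.finrank ℂ (Polynomial.degreeLT ℂ D) = D := by
    rw [LinearEquiv.finrank_eq (Polynomial.degreeLTEquiv ℂ D), Module.finrank_fin_fun]
  have h1 := LinearMap.finrank_range_add_finrank_ker (djx_map α β a b D)
  rw [LinearMap.range_eq_top.2 (djx_surj hd hb hn), finrank_top, Module.finrank_fin_fun, hrk] at h1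
  omega

theorem finrank_form (hd : Dist α β) (j N : ℕ) (hN : 2 * g + 2 * j ≤ N + 2 * g * j + 1)
    (W : Submodule K F) (hW : ∀ h ∈ W, Form α β j N h) :
    Module.Finite K W ∧ Module.finrank K W + g + 2 * j ≤ N + 2 * g * j + 1 := by
  obtain ⟨D, hD⟩ : ∃ D, D + 2 * j = N + 2 * g * j + 1 :=
    ⟨N + 2 * g * j + 1 - 2 * j, by generalize 2 * g * j = q at *; omega⟩
  have hgD : 2 * g ≤ D := by generalize 2 * g * j = q at *; omega
  have hfin : Module.Finite ℂ (Polynomial.degreeLT ℂ D) :=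
    Module.Finite.equiv (Polynomial.degreeLTEquiv ℂ D).symm
  let a : Fin g → ℂ := fun i => (djx_Q1 α β j (Sum.inr i)).eval (β i)
  let b : Fin g → ℂ := fun i => (-1) ^ j * (djx_Q1 α β j (Sum.inl i)).eval (α i)
  have ha : ∀ i, a i ≠ 0 := fun i => djx_Q1_eval hd j (Sum.inr i)
  let L : Polynomial.degreeLT ℂ D →ₗ[ℂ] RatFunc ℂ :=
    (LinearMap.mulRight ℂ ((algebraMap (Polynomial ℂ) (RatFunc ℂ) (djx_Q α β j))⁻¹)).comp
      (((Algebra.linearMap (Polynomial ℂ) (RatFunc ℂ)).restrictScalars ℂ).comp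
        (Polynomial.degreeLT ℂ D).subtype)
  have hker := djx_ker hd (b := b) ha hgD
  have hle : Module.finrank ℂ ((LinearMap.ker (djx_map α β a b D)).map L) ≤
      Module.finrank ℂ (LinearMap.ker (djx_map α β a b D)) := Submodule.finrank_map_le _ _
  obtain ⟨h1, h2⟩ := finrank_le W ((LinearMap.ker (djx_map α β a b D)).map L) (by
    intro f hf _
    obtain ⟨p, hp, hr, hv⟩ := djx_lead hD (hW f hf)
    refine Submodule.mem_map.2 ⟨⟨p, hp⟩, ?_, hr.symm⟩
    rw [LinearMap.mem_ker]
    ext i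
    change a i * p.eval (α i) - b i * p.eval (β i) = 0
    rw [sub_eq_zero]
    exact hv i)
  refine ⟨h1, ?_⟩
  generalize 2 * g * j = q at *
  omega

end Pool.Agent.TH291.C2
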